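import Pool.Agent.H37.VSASM.Final

/-!
# Monotone triangle polynomial at a duplicated even bottom row (MP_7863f5_co)

For every `n ≥ 1`, `α(n; 2, 4, …, 2n) = α(2n; 2n, 2n, 2n-2, 2n-2, …, 2, 2)`, where `α(n; k)` is the
polynomial counting monotone triangles of order `n` with bottom row `k`.

Rows are indexed from `0`: an array of order `n` is a family `a i j` of integers with `i : Fin n`
and `j : Fin (i + 1)`, so that `a i` is a row with `i + 1` entries.
-/

namespace Pool.Agent.Results.MP_7863f5_co.DuplicatedEvenRow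

/-- A monotone triangle of order `n`: every row is strictly increasing and
`a (i+1) j ≤ a i j ≤ a (i+1) (j+1)` whenever the entries exist. -/
def IsMonotoneTriangle {n : ℕ} (a : (i : Fin n) → Fin (i + 1) → ℤ) : Prop :=
  (∀ i, StrictMono (a i)) ∧
  ∀ (i : ℕ) (hi : i + 1 < n) (j : Fin (i + 1)),
    a ⟨i + 1, hi⟩ j.castSucc ≤ a ⟨i, Nat.lt_of_succ_lt hi⟩ j ∧
      a ⟨i, Nat.lt_of_succ_lt hi⟩ j ≤ a ⟨i + 1, hi⟩ j.succ

/-- The last row of the array `a` of order `n` (the row with `n` entries) is `k`. -/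
def HasBottomRow {n : ℕ} (a : (i : Fin n) → Fin (i + 1) → ℤ) (k : Fin n → ℤ) : Prop :=
  ∀ (i : ℕ) (hi : i + 1 = n) (j : Fin (i + 1)), a ⟨i, by omega⟩ j = k (Fin.cast hi j)

/-- The number of monotone triangles of order `n` with bottom row `k`. -/
noncomputable def numMT (n : ℕ) (k : Fin n → ℤ) : ℕ :=
  Nat.card {a : (i : Fin n) → Fin (i + 1) → ℤ // IsMonotoneTriangle a ∧ HasBottomRow a k}

/-- The polynomial `Q` in `n` variables counts monotone triangles of order `n`: its value at every
strictly increasing integer tuple `k` is the number of monotone triangles with bottom row `k`. -/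
def IsMTPolynomial (n : ℕ) (Q : MvPolynomial (Fin n) ℚ) : Prop :=
  ∀ k : Fin n → ℤ, StrictMono k →
    MvPolynomial.eval (fun i => (k i : ℚ)) Q = (numMT n k : ℚ)

/-- There is exactly one polynomial `α n` in `n` variables counting monotone triangles of order
`n`, for every `n`, and for every `n ≥ 1` its value at `(2, 4, …, 2n)` equals the value of
`α (2n)` at `(2n, 2n, 2n-2, 2n-2, …, 2, 2)`. -/
theorem result :
    ∃ α : (n : ℕ) → MvPolynomial (Fin n) ℚ,
      (∀ n, IsMTPolynomial n (α n) ∧ ∀ Q, IsMTPolynomial n Q → Q = α n) ∧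
      ∀ n : ℕ, 1 ≤ n →
        MvPolynomial.eval (fun i : Fin n => ((2 * ((i : ℕ) + 1) : ℕ) : ℚ)) (α n) =
        MvPolynomial.eval (fun i : Fin (2 * n) => ((2 * (n - (i : ℕ) / 2) : ℕ) : ℚ))
          (α (2 * n)) := by
  choose α hα using H37.VSASM.alphaN_poly
  have hMT : ∀ n, IsMTPolynomial n (α n) := by
    intro n
    have h := H37.VSASM.isMTPolynomial_of_nat (α n) (by
      intro k hk
      rw [← hα n k, H37.VSASM.numMT_eq_alphaN n k hk])
    exact h
  refine ⟨α, fun n => ⟨hMT n, fun Q hQ => ?_⟩, fun n _ => ?_⟩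
  · rw [← sub_eq_zero]
    apply H37.VSASM.poly_eq_zero
    intro k hk
    have hk' : StrictMono (fun i => (k i : ℤ)) := fun i j hij => Int.ofNat_lt.mpr (hk hij)
    have h1 := hQ (fun i => (k i : ℤ)) hk'
    have h2 := hMT n (fun i => (k i : ℤ)) hk'
    push_cast at h1 h2
    rw [map_sub, h1, h2, sub_self]
  · have h1 := hα n (H37.VSASM.kUp n)
    have h2 := hα (2 * n) (H37.VSASM.kDown n)
    rw [H37.VSASM.alphaN_kUp] at h1
    rw [H37.VSASM.alphaN_kDown] at h2
    exact h1.symm.trans h2

end Pool.Agent.Results.MP_7863f5_co.DuplicatedEvenRow
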